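import Pool.Agent.H98.SD.Targets
import Pool.Agent.H7.HD.All

/-!
Row DXP of the board sd2: positivity is definable (helper52).
-/

set_option autoImplicit false

open Ordinal Cardinal Order Set
open scoped ZFSet

universe u

namespace Pool.Agent.H52.SD

open _root_.HD _root_.HD.SD

/-- the set `s` is the part of `v (j + 1)` given by `Q`, and it is positive -/
def RP (Q : (ℕ → ZFSet.{u}) → Prop) (i j : ℕ) (s : ZFSet.{u}) (v : ℕ → ZFSet.{u}) : Prop :=
  (∀ z, z ∈ s ↔ z ∈ v (j + 1) ∧ Q (cons (v 0) (cons z fun n => v (n + 1)))) ∧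
    ((v (i + 1)).IsOrdinal ∧ (v (j + 1)).IsOrdinal ∧
      Pos (v (i + 1)).rank (v (j + 1)).rank {b | b.toZFSet ∈ s})

theorem rp_dz {Q : (ℕ → ZFSet.{u}) → Prop} (hQ : DZ Q) (i j : ℕ) :
    DZ fun v => ∃ s, RP Q i j s v := by
  refine DZ.ex (R := RP Q i j) (DZ.and ?_ ?_)
  · refine DZ.all (R := fun z v => z ∈ v 0 ↔ z ∈ v (j + 2) ∧
      Q (cons (v 1) (cons z fun n => v (n + 2)))) ?_
    refine (DZ.mem 0 1).iff ((DZ.mem 0 (j + 3)).and ?_)
    refine (hQ.ren fun n => if n = 0 then 2 else if n = 1 then 0 else n + 1).congr fun v => ?_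
    have : cons (v 2) (cons (v 0) fun n => v (n + 3)) =
        fun n => v (if n = 0 then 2 else if n = 1 then 0 else n + 1) := by
      funext n
      rcases n with _ | _ | n <;> rfl
    rw [← this]
  · exact (loc_pos All.la (P := fun b v => b ∈ v 0) (i + 2) (j + 2) (Loc.mem 0 1)).dz

theorem pf_DXP : T_DXP.{u} := by
  intro P hP i j
  obtain ⟨Q, hQ, h⟩ := hP
  refine ⟨fun v => ∃ s, RP Q i j s v, rp_dz hQ i j, fun x w => ?_⟩
  have hq : ∀ b : Ordinal.{u}, P x (cns b w) ↔ Q (cons x (cons b.toZFSet (ov w))) := by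
    intro b
    rw [h x (cns b w), ov_cns]
  have e1 : ((w i).toZFSet).rank = w i := rank_toZFSet _
  have e2 : ((w j).toZFSet).rank = w j := rank_toZFSet _
  constructor
  · intro hp
    refine ⟨os (w j) {b | P x (cns b w)}, ?_, ZFSet.isOrdinal_toZFSet _,
      ZFSet.isOrdinal_toZFSet _, ?_⟩
    · intro z
      constructor
      · intro hz
        obtain ⟨b, hb, h1, rfl⟩ := mem_os.1 hz
        exact ⟨toZFSet_mem_toZFSet_iff.2 hb, (hq b).1 h1⟩
      · rintro ⟨h1, h2⟩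
        obtain ⟨b, hb, rfl⟩ := mem_toZFSet_iff.1 h1
        exact ord_mem_os.2 ⟨hb, (hq b).2 h2⟩
    · show Pos ((w i).toZFSet).rank ((w j).toZFSet).rank _
      rw [e1, e2]
      refine (Pos.congr fun b hb => ?_).1 hp
      show _ ↔ b.toZFSet ∈ os (w j) _
      rw [ord_mem_os]
      exact ⟨fun h => ⟨hb, h⟩, fun h => h.2⟩
  · rintro ⟨s, hs, -, -, hp⟩
    have hp' : Pos ((w i).toZFSet).rank ((w j).toZFSet).rank {b | b.toZFSet ∈ s} := hp
    rw [e1, e2] at hp'
    refine (Pos.congr fun b hb => ?_).1 hp'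
    show b.toZFSet ∈ s ↔ P x (cns b w)
    rw [hq b, hs]
    exact ⟨fun h => h.2, fun h => ⟨toZFSet_mem_toZFSet_iff.2 hb, h⟩⟩

end Pool.Agent.H52.SD
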